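import Pool.Agent.Lib_helper38.G4.BB
import Pool.Agent.Lib_helper38.G4.DB
import Pool.Agent.Lib_helper44.G4.Defs
import Pool.Agent.Lib_helper93.G4.LS

/-! Blocks MSF, MSU (helper76). -/

namespace Pool.Agent.G4

open Complex MeasureTheory Filter Topology

variable {m : ℕ}

theorem msf_norm (b : ℕ → ℂ) (K : ℝ → ℂ) (u : ℝ) (n : ℕ) :
    ‖b n * (((√(n : ℝ))⁻¹ : ℝ) : ℂ) * K (u + Real.log n)‖ =
      ‖b n‖ * (√(n : ℝ))⁻¹ * ‖K (u + Real.log n)‖ := by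
  rw [norm_mul, norm_mul, Complex.norm_real, Real.norm_of_nonneg (by positivity)]

theorem msf_sq (b : ℕ → ℂ) (K : ℝ → ℂ) (u : ℝ) (n : ℕ) :
    ‖b n * (((√(n : ℝ))⁻¹ : ℝ) : ℂ) * K (u + Real.log n)‖ ^ 2 =
      ‖b n‖ ^ 2 / n * ‖K (u + Real.log n)‖ ^ 2 := by
  rw [msf_norm, mul_pow, mul_pow, inv_pow, Real.sq_sqrt (Nat.cast_nonneg n)]
  rfl

theorem msf_sq2 (b : ℕ → ℂ) (K : ℝ → ℂ) (u : ℝ) (n : ℕ) :
    (n : ℝ) ^ 2 * ‖b n * (((√(n : ℝ))⁻¹ : ℝ) : ℂ) * K (u + Real.log n)‖ ^ 2 =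
      (n : ℝ) * ‖b n‖ ^ 2 * ‖K (u + Real.log n)‖ ^ 2 := by
  rw [msf_sq]
  rcases Nat.eq_zero_or_pos n with h | h
  · subst h
    simp
  · have : (n : ℝ) ≠ 0 := by exact_mod_cast h.ne'
    field_simp

/-- MSF -/
theorem msf_pr (N : ℕ) {κ : ℝ} (hκ : 0 < κ) {K : ℝ → ℂ} (hK : IsKer κ K) (Cb : ℝ) :
    ∃ C : ℝ, 0 ≤ C ∧ ∀ b : ℕ → ℂ, RSB b Cb → ∀ (Q : ℕ) (u : ℝ),
      ∑ x ∈ pairs N Q, ‖D b K x u‖ ^ 2 ≤
        Q ^ 2 * (∑' n : ℕ, ‖b n‖ ^ 2 / n * ‖K (u + Real.log n)‖ ^ 2) + C * Real.exp (-u) := by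
  obtain ⟨C0, hC0, h0⟩ := b0_bound_pr hκ hK Cb
  obtain ⟨C2, hC2, h2⟩ := b2_bound_pr hκ hK Cb
  refine ⟨2 * Real.pi * (√C0 * √C2), by positivity, fun b hb Q u => ?_⟩
  set b' : ℕ → ℂ := fun n => b n * (((√(n : ℝ))⁻¹ : ℝ) : ℂ) * K (u + Real.log n) with hb'
  have hs : Summable fun n : ℕ => (n : ℝ) * ‖b' n‖ := by
    refine (db_summable_pr hκ hK hb u).congr fun n => ?_
    rw [hb']
    simp only
    rw [msf_norm]
  have hls := large_sieve_pr N Q b' hs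
  have e1 : ∀ x ∈ pairs N Q, ‖D b K x u‖ ^ 2 = ‖∑' n : ℕ, b' n * ev x n‖ ^ 2 := by
    intro x _
    congr 2
    unfold D
    refine tsum_congr fun n => ?_
    rw [hb']
    ring
  rw [Finset.sum_congr rfl e1]
  refine hls.trans ?_
  have e2 : ∀ n, ‖b' n‖ ^ 2 = ‖b n‖ ^ 2 / n * ‖K (u + Real.log n)‖ ^ 2 := fun n => msf_sq b K u n
  have e3 : ∀ n : ℕ, (n : ℝ) ^ 2 * ‖b' n‖ ^ 2 = (n : ℝ) * ‖b n‖ ^ 2 * ‖K (u + Real.log n)‖ ^ 2 :=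
    fun n => msf_sq2 b K u n
  rw [tsum_congr e3, tsum_congr e2]
  have h4 : √(∑' n : ℕ, ‖b n‖ ^ 2 / n * ‖K (u + Real.log n)‖ ^ 2) ≤ √C0 :=
    Real.sqrt_le_sqrt (h0 b hb u).2
  have h5 : √(∑' n : ℕ, (n : ℝ) * ‖b n‖ ^ 2 * ‖K (u + Real.log n)‖ ^ 2) ≤ √C2 * Real.exp (-u) := by
    have : √(C2 * Real.exp (-2 * u)) = √C2 * Real.exp (-u) := by
      rw [Real.sqrt_mul hC2, show -2 * u = -u + -u by ring, Real.exp_add,
        Real.sqrt_mul_self (Real.exp_pos _).le]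
    rw [← this]
    exact Real.sqrt_le_sqrt (h2 b hb u).2
  have h6 : √(∑' n : ℕ, ‖b n‖ ^ 2 / n * ‖K (u + Real.log n)‖ ^ 2) *
      √(∑' n : ℕ, (n : ℝ) * ‖b n‖ ^ 2 * ‖K (u + Real.log n)‖ ^ 2) ≤
      √C0 * (√C2 * Real.exp (-u)) :=
    mul_le_mul h4 h5 (Real.sqrt_nonneg _) (Real.sqrt_nonneg _)
  have hpi := Real.pi_pos
  have h7 := mul_le_mul_of_nonneg_left h6 (by positivity : (0 : ℝ) ≤ 2 * Real.pi)
  have h8 : 2 * Real.pi * (√C0 * (√C2 * Real.exp (-u))) =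
      2 * Real.pi * (√C0 * √C2) * Real.exp (-u) := by ring
  linarith

theorem msu_rs (S : Sys m) : ∃ C : ℝ, RSB S.a C := S.rs

theorem msu_exp (S : Sys m) (hm : m ≤ 4) {Q : ℕ} (hQ : 1 ≤ Q) {u : ℝ} (hu : -ellQ S Q ≤ u) :
    Real.exp (-u) ≤ √S.N * Q ^ 2 := by
  have hN : (0 : ℝ) < S.N := by exact_mod_cast S.N_pos
  have hQ' : (1 : ℝ) ≤ Q := by exact_mod_cast hQ
  have hQ0 : (0 : ℝ) < Q := by linarith
  have h1 : Real.exp (-u) ≤ Real.exp (ellQ S Q) := Real.exp_le_exp.mpr (by linarith)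
  have h2 : ellQ S Q ≤ Real.log S.N / 2 + 2 * Real.log Q := by
    unfold ellQ
    have : (m : ℝ) ≤ 4 := by exact_mod_cast hm
    have hl : 0 ≤ Real.log Q := Real.log_nonneg hQ'
    nlinarith
  have h3 : Real.exp (Real.log S.N / 2 + 2 * Real.log Q) = √S.N * Q ^ 2 := by
    rw [Real.exp_add, two_mul, Real.exp_add, Real.exp_log hQ0]
    congr 1
    · rw [Real.sqrt_eq_rpow, Real.rpow_def_of_pos hN]
      congr 1
      ring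
    · ring
  rw [← h3]
  exact h1.trans (Real.exp_le_exp.mpr h2)

theorem msu_pairs {N Q : ℕ} (hQ : Q ≤ 1) : pairs N Q = ∅ := by
  unfold pairs
  have : Q - 1 = 0 := by omega
  rw [this]
  simp

/-- MSU: this is where `m ≤ 4` is used -/
theorem msu_pr {S : Sys m} (hm : m ≤ 4) (k : Kers S) : ∃ C : ℝ, 0 ≤ C ∧ ∀ (Q : ℕ) (u : ℝ),
    -ellQ S Q ≤ u → ∑ x ∈ pairs S.N Q, ‖Dx k x u‖ ^ 2 ≤ C * Q ^ 2 := by
  obtain ⟨Cb, hb⟩ := msu_rs S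
  have h1 : ∀ δ : Fin 2, ∃ C : ℝ, 0 ≤ C ∧ ∀ (Q : ℕ) (u : ℝ), -ellQ S Q ≤ u →
      ∑ x ∈ pairs S.N Q, ‖D S.a (k.K δ) x u‖ ^ 2 ≤ C * Q ^ 2 := by
    intro δ
    obtain ⟨C0, hC0, h0⟩ := b0_bound_pr k.κ_pos (k.isKer δ) Cb
    obtain ⟨C, hC, h⟩ := msf_pr S.N k.κ_pos (k.isKer δ) Cb
    refine ⟨C0 + C * √S.N, by positivity, fun Q u hu => ?_⟩
    rcases Nat.lt_or_ge Q 1 with hQ | hQ
    · rw [msu_pairs (by omega : Q ≤ 1)]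
      simp only [Finset.sum_empty]
      positivity
    · have h2 := h S.a hb Q u
      have h3 := msu_exp S hm hQ hu
      have h4 := mul_le_mul_of_nonneg_left (h0 S.a hb u).2 (by positivity : (0 : ℝ) ≤ (Q : ℝ) ^ 2)
      have h5 := mul_le_mul_of_nonneg_left h3 hC
      nlinarith
  obtain ⟨C0, hC0, h0⟩ := h1 0
  obtain ⟨C1, hC1, h1⟩ := h1 1
  refine ⟨C0 + C1, by positivity, fun Q u hu => ?_⟩
  have h2 : ∑ x ∈ pairs S.N Q, ‖Dx k x u‖ ^ 2 ≤ ∑ x ∈ pairs S.N Q,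
      (‖D S.a (k.K 0) x u‖ ^ 2 + ‖D S.a (k.K 1) x u‖ ^ 2) := by
    refine Finset.sum_le_sum fun x _ => ?_
    unfold Dx
    have h3 : par x.2 = 0 ∨ par x.2 = 1 := by
      unfold par
      split_ifs
      · exact Or.inr rfl
      · exact Or.inl rfl
    rcases h3 with h3 | h3
    · rw [h3]
      have := sq_nonneg ‖D S.a (k.K 1) x u‖
      linarith
    · rw [h3]
      have := sq_nonneg ‖D S.a (k.K 0) x u‖
      linarith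
  rw [Finset.sum_add_distrib] at h2
  have := h0 Q u hu
  have := h1 Q u hu
  nlinarith

end Pool.Agent.G4
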