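import Pool.Agent.Lib_helper38.G4.DB
import Pool.Agent.Lib_helper44.G4.Defs
import Pool.Agent.Lib_helper50.G4.DEC
import Pool.Agent.Lib_helper60.G4.MSW

/-! Block ONE (helper76). -/

namespace Pool.Agent.G4

open Complex MeasureTheory Filter Topology

variable {m : ℕ}

theorem one_pairs {N Q : ℕ} {x : Ix} (hx : x ∈ pairs N Q) : x.q.Coprime N ∧ x.2.IsPrimitive := by
  classical
  unfold pairs at hx
  rw [Finset.mem_sigma] at hx
  obtain ⟨h1, h2⟩ := hx
  rw [Finset.mem_filter] at h1 h2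
  exact ⟨h1.2, h2.2⟩

theorem one_cont {S : Sys m} (k : Kers S) (x : Ix) : Continuous (Dx k x) := by
  obtain ⟨C, hC⟩ := S.rs
  exact db_cont_pr k.κ_pos (k.isKer _) hC x

theorem one_exp_int : Integrable fun u : ℝ => Real.exp (-1 * |u|) := by
  have h1 : IntegrableOn (fun u : ℝ => Real.exp (-1 * |u|)) (Set.Ioi 0) := by
    refine (integrableOn_exp_neg_Ioi 0).congr_fun (fun u hu => ?_) measurableSet_Ioi
    have : (0 : ℝ) < u := hu
    rw [abs_of_pos this]
    ring_nf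
  have h2 : IntegrableOn (fun u : ℝ => Real.exp (-1 * |u|)) (Set.Iic 0) := by
    refine (integrableOn_exp_Iic 0).congr_fun (fun u hu => ?_) measurableSet_Iic
    have : u ≤ (0 : ℝ) := hu
    rw [abs_of_nonpos this]
    ring_nf
  have := h2.union h1
  rwa [Set.Iic_union_Ioi, integrableOn_univ] at this

theorem one_int {S : Sys m} (k : Kers S) {x : Ix} (hx : x.q.Coprime S.N)
    (hp : x.2.IsPrimitive) (c : ℝ) : Integrable fun u : ℝ => Dx k x (u - c) := by
  obtain ⟨C, hC⟩ := dens_decay_pr k hx hp 1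
  have h : Integrable (Dx k x) := by
    refine Integrable.mono' (one_exp_int.const_mul C) (one_cont k x).aestronglyMeasurable ?_
    exact Eventually.of_forall hC
  exact h.comp_sub_right c

theorem one_hf {S : Sys m} (k : Kers S) (x : Ix) (t : ℝ) :
    cexp (ell S x * t * I) * Hf k x (t * I) =
      ∫ u : ℝ, Dx k x (u - ell S x) * cexp (t * u * I) := by
  unfold Hf
  rw [← integral_const_mul, ← integral_sub_right_eq_self _ (ell S x)]
  congr 1
  ext u
  rw [mul_left_comm, ← Complex.exp_add]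
  congr 2
  push_cast
  ring

theorem one_fub {S : Sys m} (k : Kers S) {x : Ix} (hx : x.q.Coprime S.N)
    (hp : x.2.IsPrimitive) {w : ℝ → ℝ} (hw : Continuous w) (hc : HasCompactSupport w) :
    ∫ t : ℝ, (w t : ℂ) * (cexp (ell S x * t * I) * Hf k x (t * I)) =
      ∫ u : ℝ, Dx k x (u - ell S x) * hatw w u := by
  have hD := one_int k hx hp (ell S x)
  have hwi : Integrable fun t : ℝ => (w t : ℂ) := (hw.integrable_of_hasCompactSupport hc).ofReal
  have h1 : ∀ t : ℝ, (w t : ℂ) * (cexp (ell S x * t * I) * Hf k x (t * I)) =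
      ∫ u : ℝ, (w t : ℂ) * (Dx k x (u - ell S x) * cexp (t * u * I)) := by
    intro t
    rw [one_hf, integral_const_mul]
  simp_rw [h1]
  rw [integral_integral_swap]
  · congr 1
    ext u
    unfold hatw
    rw [← integral_const_mul]
    congr 1
    ext t
    ring
  · have h2 : Integrable (fun p : ℝ × ℝ => (w p.1 : ℂ) * Dx k x (p.2 - ell S x))
        (volume.prod volume) := hwi.mul_prod hD
    have h3 : Function.uncurry (fun t u : ℝ => (w t : ℂ) * (Dx k x (u - ell S x) *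
        cexp (t * u * I))) = fun p : ℝ × ℝ => ((w p.1 : ℂ) * Dx k x (p.2 - ell S x)) *
          cexp (p.1 * p.2 * I) := by
      ext p
      simp only [Function.uncurry]
      ring
    rw [h3]
    refine h2.mul_bdd (c := 1) ?_ ?_
    · exact (by fun_prop : Continuous fun p : ℝ × ℝ => cexp (p.1 * p.2 * I)).aestronglyMeasurable
    · refine Eventually.of_forall fun p => ?_
      rw [show (p.1 : ℂ) * p.2 * I = ((p.1 * p.2 : ℝ) : ℂ) * I by push_cast; ring,
        Complex.norm_exp_ofReal_mul_I]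

theorem one_cs {f : ℝ → ℂ} (hf : Continuous f) {C : ℝ} (hC : ∀ u, ‖f u‖ ≤ C) :
    (∫ u : ℝ, ‖f u‖ / (1 + u ^ 2)) ^ 2 ≤ Real.pi * ∫ u : ℝ, ‖f u‖ ^ 2 / (1 + u ^ 2) := by
  have hi1 : Integrable fun u : ℝ => (1 + u ^ 2)⁻¹ := integrable_inv_one_add_sq
  have hc1 : Continuous fun u : ℝ => (1 + u ^ 2)⁻¹ :=
    Continuous.inv₀ (by fun_prop) (fun u => by positivity)
  have hC0 : 0 ≤ C := (norm_nonneg _).trans (hC 0)
  have hi2 : Integrable fun u : ℝ => ‖f u‖ ^ 2 / (1 + u ^ 2) := by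
    refine Integrable.mono' (hi1.const_mul (C ^ 2)) ?_ (Eventually.of_forall fun u => ?_)
    · exact ((hf.norm.pow 2).mul hc1).aestronglyMeasurable
    · rw [Real.norm_of_nonneg (by positivity), div_eq_mul_inv]
      exact mul_le_mul_of_nonneg_right (pow_le_pow_left₀ (norm_nonneg _) (hC u) 2) (by positivity)
  have hi3 : Integrable fun u : ℝ => ‖f u‖ / (1 + u ^ 2) := by
    refine Integrable.mono' (hi1.const_mul C) ?_ (Eventually.of_forall fun u => ?_)
    · exact (hf.norm.mul hc1).aestronglyMeasurable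
    · rw [Real.norm_of_nonneg (by positivity), div_eq_mul_inv]
      exact mul_le_mul_of_nonneg_right (hC u) (by positivity)
  set A := ∫ u : ℝ, ‖f u‖ ^ 2 / (1 + u ^ 2) with hA
  set B := ∫ u : ℝ, ‖f u‖ / (1 + u ^ 2) with hB
  -- the quadratic `∫ (‖f‖ - s)² / (1+u²) = A - 2 s B + s² π ≥ 0`
  have hq : ∀ s : ℝ, 0 ≤ A - 2 * s * B + s ^ 2 * Real.pi := by
    intro s
    have h1 : A - 2 * s * B + s ^ 2 * Real.pi = ∫ u : ℝ, (‖f u‖ - s) ^ 2 / (1 + u ^ 2) := by
      have h0 : Integrable (fun u : ℝ => ‖f u‖ ^ 2 / (1 + u ^ 2) - 2 * s * (‖f u‖ / (1 + u ^ 2))) :=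
        hi2.sub (hi3.const_mul _)
      rw [hA, hB, ← integral_univ_inv_one_add_sq, ← integral_const_mul, ← integral_const_mul,
        ← integral_sub hi2 (hi3.const_mul _), ← integral_add h0 (hi1.const_mul _)]
      congr 1
      ext u
      have : (1 + u ^ 2 : ℝ) ≠ 0 := by positivity
      field_simp
      ring
    rw [h1]
    exact integral_nonneg fun u => by positivity
  have hpi := Real.pi_pos
  have h2 := hq (B / Real.pi)
  have h3 : A - 2 * (B / Real.pi) * B + (B / Real.pi) ^ 2 * Real.pi = A - B ^ 2 / Real.pi := by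
    field_simp
    ring
  rw [h3] at h2
  have h4 : B ^ 2 / Real.pi ≤ A := by linarith
  rw [div_le_iff₀ hpi] at h4
  linarith

/-- ONE: the upper bound -/
theorem one_pr {S : Sys m} (hm : m ≤ 4) (k : Kers S) {w : ℝ → ℝ} (hw : Continuous w)
    (hc : HasCompactSupport w) {C₁ : ℝ} (hd : ∀ u, ‖hatw w u‖ ≤ C₁ / (1 + u ^ 2)) :
    ∃ C : ℝ, 0 ≤ C ∧ ∀ Q : ℕ, ∑ x ∈ pairs S.N Q,
      ‖∫ t : ℝ, (w t : ℂ) * (cexp (ell S x * t * I) * Hf k x (t * I))‖ ^ 2 ≤ C * Q ^ 2 := by
  obtain ⟨C, hC, h⟩ := mss_pr hm k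
  have hpi := Real.pi_pos
  have hC1 : 0 ≤ C₁ := by
    have := (norm_nonneg _).trans (hd 0)
    simpa using this
  refine ⟨C₁ ^ 2 * Real.pi * C, by positivity, fun Q => ?_⟩
  have h1 : ∀ x ∈ pairs S.N Q,
      ‖∫ t : ℝ, (w t : ℂ) * (cexp (ell S x * t * I) * Hf k x (t * I))‖ ^ 2 ≤
        C₁ ^ 2 * Real.pi * ∫ u : ℝ, ‖Dx k x (u - ell S x)‖ ^ 2 / (1 + u ^ 2) := by
    intro x hx
    obtain ⟨hx1, hx2⟩ := one_pairs hx
    rw [one_fub k hx1 hx2 hw hc]
    obtain ⟨C', hC'⟩ := dens_decay_pr k hx1 hx2 0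
    have hb : ∀ u : ℝ, ‖Dx k x (u - ell S x)‖ ≤ C' := by
      intro u
      have := hC' (u - ell S x)
      simpa using this
    have hcont : Continuous fun u : ℝ => Dx k x (u - ell S x) :=
      (one_cont k x).comp (continuous_id.sub continuous_const)
    have hC0 : 0 ≤ C' := (norm_nonneg _).trans (hb 0)
    have hi1 : Integrable fun u : ℝ => (1 + u ^ 2)⁻¹ := integrable_inv_one_add_sq
    have hc1 : Continuous fun u : ℝ => (1 + u ^ 2)⁻¹ :=
      Continuous.inv₀ (by fun_prop) (fun u => by positivity)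
    have hi3 : Integrable fun u : ℝ => C₁ * (‖Dx k x (u - ell S x)‖ / (1 + u ^ 2)) := by
      refine Integrable.const_mul ?_ _
      refine Integrable.mono' (hi1.const_mul C') ?_ (Eventually.of_forall fun u => ?_)
      · exact (hcont.norm.mul hc1).aestronglyMeasurable
      · rw [Real.norm_of_nonneg (by positivity), div_eq_mul_inv]
        exact mul_le_mul_of_nonneg_right (hb u) (by positivity)
    have h2 : ‖∫ u : ℝ, Dx k x (u - ell S x) * hatw w u‖ ≤
        ∫ u : ℝ, C₁ * (‖Dx k x (u - ell S x)‖ / (1 + u ^ 2)) := by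
      refine norm_integral_le_of_norm_le hi3 (Eventually.of_forall fun u => ?_)
      rw [norm_mul]
      calc ‖Dx k x (u - ell S x)‖ * ‖hatw w u‖
          ≤ ‖Dx k x (u - ell S x)‖ * (C₁ / (1 + u ^ 2)) :=
            mul_le_mul_of_nonneg_left (hd u) (norm_nonneg _)
        _ = _ := by ring
    rw [integral_const_mul] at h2
    have h3 := pow_le_pow_left₀ (norm_nonneg _) h2 2
    have h4 := one_cs hcont hb
    rw [mul_pow] at h3
    have h5 := mul_le_mul_of_nonneg_left h4 (sq_nonneg C₁)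
    linarith
  calc ∑ x ∈ pairs S.N Q, ‖∫ t : ℝ, (w t : ℂ) * (cexp (ell S x * t * I) * Hf k x (t * I))‖ ^ 2
      ≤ ∑ x ∈ pairs S.N Q, C₁ ^ 2 * Real.pi *
          ∫ u : ℝ, ‖Dx k x (u - ell S x)‖ ^ 2 / (1 + u ^ 2) := Finset.sum_le_sum h1
    _ = C₁ ^ 2 * Real.pi * ∑ x ∈ pairs S.N Q,
          ∫ u : ℝ, ‖Dx k x (u - ell S x)‖ ^ 2 / (1 + u ^ 2) := by rw [← Finset.mul_sum]
    _ ≤ C₁ ^ 2 * Real.pi * (C * Q ^ 2) := mul_le_mul_of_nonneg_left (h Q) (by positivity)
    _ = _ := by ring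

end Pool.Agent.G4
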